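import Pool.Agent.J4.H33.DM.Main
import Pool.Agent.Results.MP_88c4e5_co.FixedDimension

/-!
# MP_88c4e5_co, Q1: a nontrivial lattice identity exists in dimension `d` iff `d ≤ 3`

* There is one lattice identity `s = t`, failing in some lattice, that holds in the
  Dedekind-MacNeille completion of the poset of regions of every central hyperplane arrangement in
  `ℝ^d` with `d ≤ 3`, for every base region.
* For each `d`, a nontrivial lattice identity that holds in `DM(H, B)` for every central
  arrangement `H` in `ℝ^d` and every base region `B` exists if and only if `d ≤ 3`.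
* No nontrivial lattice identity holds in `DM(H, B)` for all `H` in all dimensions.

The case `d ≥ 4` is the theorem of the file `FixedDimension.lean`.
-/

set_option autoImplicit false

namespace Pool.Agent.Results.MP_88c4e5_co.IdentityIffDimensionAtMostThree

open R761.BipLat Pool.Agent.H178R3 Pool.Agent.H178R3.CentralArrangement Pool.Agent.J4.H33.DM

universe u

/-- The lattice identity `s = t` is nontrivial: it fails in some lattice. -/
def Nontrivial (s t : LTerm) : Prop :=
  ∃ (L : Type u) (_ : Lattice L) (v : ℕ → L), s.eval v ≠ t.eval v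

/-- The lattice identity `s = t` holds in `DM(H, B)` for every central arrangement `H` in `ℝ^d` and
every base region `B`. -/
def HoldsInDim (d : ℕ) (s t : LTerm) : Prop :=
  ∀ (H : CentralArrangement d) (B : H.Region) (v : ℕ → DedekindCut (Pos H B)),
    s.eval v = t.eval v

theorem eval_up {L : Type} [Lattice L] (v : ℕ → L) (t : LTerm) :
    t.eval (fun n => (ULift.up (v n) : ULift.{u} L)) = ULift.up (t.eval v) := by
  induction t with
  | var i => rfl
  | sup s t hs ht =>
    show s.eval _ ⊔ t.eval _ = _
    rw [hs, ht]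
    rfl
  | inf s t hs ht =>
    show s.eval _ ⊓ t.eval _ = _
    rw [hs, ht]
    rfl

theorem result :
    (∃ s t : LTerm, Nontrivial.{u} s t ∧ ∀ d ≤ 3, HoldsInDim d s t) ∧
    (∀ d : ℕ, (∃ s t : LTerm, Nontrivial.{u} s t ∧ HoldsInDim d s t) ↔ d ≤ 3) ∧
    ¬ ∃ s t : LTerm, Nontrivial.{u} s t ∧ ∀ d ≥ 1, HoldsInDim d s t := by
  have hex : ∃ s t : LTerm, Nontrivial.{u} s t ∧ ∀ d ≤ 3, HoldsInDim d s t := by
    refine ⟨.inf tS tT, tS, ⟨ULift.{u} Cl, inferInstance, fun n => ULift.up (Cl.pt n), ?_⟩, ?_⟩
    · rw [eval_up, eval_up]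
      intro h
      exact fails (congrArg ULift.down h)
    · intro d hd H B v
      exact identity hd v
  have hno : ∀ d, 4 ≤ d → ¬ ∃ s t : LTerm, Nontrivial.{u} s t ∧ HoldsInDim d s t := by
    rintro d hd ⟨s, t, hst, hold⟩
    obtain ⟨H, B, v, hv⟩ := FixedDimension.result d hd s t hst
    exact hv (hold H B v)
  refine ⟨hex, fun d => ⟨fun h => ?_, fun hd => ?_⟩, ?_⟩
  · by_contra hd
    exact hno d (by omega) h
  · obtain ⟨s, t, hst, hold⟩ := hex
    exact ⟨s, t, hst, hold d hd⟩
  · rintro ⟨s, t, hst, hold⟩
    exact hno 4 le_rfl ⟨s, t, hst, hold 4 (by omega)⟩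

end Pool.Agent.Results.MP_88c4e5_co.IdentityIffDimensionAtMostThree
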